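import Pool.Agent.H639.Mit6
import Pool.Graph.R_pool_sql_team_seeded_2aa45f1a.H310.HD.Gsplit

/-!
# Atomic or atomless: a zero-one law for the stationary sets in HOD

Let `δ` be an extendible cardinal, and for regular `l > δ` let `B(l)` be the Boolean algebra of the sets
in HOD of ordinals below `l` of cofinality less than `δ`, modulo nonstationary sets. Either for all
regular `l > δ` the algebra `B(l)` is atomless, and every stationary set in it is the union of `l`
pairwise disjoint stationary sets in HOD; this happens if and only if the HOD Hypothesis holds. Or for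
all regular `l > δ` the algebra `B(l)` is atomic, and there is a uniform bound less than `δ` for the
number of pairwise disjoint stationary sets in HOD of ordinals of cofinality at most `μ < δ`.
-/

set_option autoImplicit false

namespace Pool.Agent.Results.MP_ecfd11_lc.AtomicOrAtomless

open Pool.Agent.H310.HD Pool.Agent.H639 Gss969 ZFSet
open Pool.Agent.Results.MP_e37c09_lc.AlternativeA

universe u

/-- `A` is a stationary subset of `l` in HOD, and its elements have cofinality less than `δ`. -/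
def Pos (δ l : Ordinal.{u}) (A : ZFSet.{u}) : Prop :=
  HOD A ∧ A ⊆ l.toZFSet ∧ Stat A l.toZFSet ∧ ∀ a ∈ A, ∃ m < δ, CofN (Ordinal.toZFSet m) a

/-- For all regular `l > δ` every positive set is the union of any number `0 < k ≤ l` of pairwise
disjoint stationary sets, in HOD. -/
def Splitting (δ : Ordinal.{u}) : Prop :=
  ∀ l > δ, RegUnc (Ordinal.toZFSet l) → ∀ A, Pos δ l A → ∀ k : Ordinal.{u}, 0 < k → k ≤ l →
    ∃ g, HOD g ∧ PartOf A k.toZFSet l.toZFSet g

/-- For all regular `l > δ` no positive set is an atom. -/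
def Atomless (δ : Ordinal.{u}) : Prop :=
  ∀ l > δ, RegUnc (Ordinal.toZFSet l) → ∀ A, Pos δ l A → ¬ Atom l.toZFSet A

/-- For all regular `l > δ` every positive set contains an atom. -/
def Atomic (δ : Ordinal.{u}) : Prop :=
  ∀ l > δ, RegUnc (Ordinal.toZFSet l) → ∀ A, Pos δ l A → ∃ A', A' ⊆ A ∧ Atom l.toZFSet A'

theorem result (b : Bool) (δ : Ordinal.{u}) (hδ : Extendible δ) :
    List.TFAE [HODHypothesis.{u} b, AltA δ, Splitting δ, Atomless δ, ¬ Atomic δ, ¬ Bdd δ] := by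
  have hres := Pool.Agent.Results.MP_e37c09_lc.AlternativeA.result b δ hδ
  have hω : ∀ l > δ, RegUnc (Ordinal.toZFSet l) →
      Pos δ l (ZFSet.sep (fun α => CofN Ordinal.omega0.toZFSet α) l.toZFSet) := by
    intro l hl hr
    refine ⟨?_, sep_subset, ?_, fun a ha => ⟨_, hδ.om_lt, (mem_sep.1 ha).2⟩⟩
    · exact HOD_of_sub (OD_cof _ l) fun p hp => (HOD_ord l).mem (mem_sep.1 hp).1
    · rw [stat_iff]
      refine (statL_om hr hl).mono fun α hα h => ?_
      exact mem_sep.2 ⟨tzm.2 hα, h.2⟩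
  tfae_have 1 ↔ 2 := hres.out 9 0
  tfae_have 2 → 3 := by
    intro h l hl hr A hA k hk0 hk
    have hcov : Covers δ := (hres.out 0 7).1 h
    refine split_OD hr hA.1.od ?_ hk0 hk
    refine (StatL.tail hr (stat_iff.1 hA.2.2.1) hl).mono fun α hα h1 => ⟨h1.1, ?_⟩
    obtain ⟨m, hm, hc⟩ := hA.2.2.2 α.toZFSet h1.1
    obtain ⟨c, hc', g, hg, hgf, hgc⟩ := hcov α m hm hc
    exact ⟨_, tz_mem.2 (hc'.trans h1.2), g, hg, hgf, hgc⟩
  tfae_have 3 → 4 := by
    intro h l hl hr A hA hat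
    have h2 : (2 : Ordinal.{u}) ≤ l := (two_lt hr).le
    obtain ⟨g, hg, hgp⟩ := h l hl hr A hA 2 (by exact_mod_cast zero_lt_two) h2
    have h0 : (0 : Ordinal.{u}).toZFSet ∈ (2 : Ordinal.{u}).toZFSet :=
      tzm.2 (by exact_mod_cast zero_lt_two)
    have h1 : (1 : Ordinal.{u}).toZFSet ∈ (2 : Ordinal.{u}).toZFSet :=
      tzm.2 (by exact_mod_cast one_lt_two)
    have hs0 := mem_powerset.1 (app_mem hgp.1 h0)
    have hs1 := mem_powerset.1 (app_mem hgp.1 h1)
    have hp0 := app_spec hgp.1 h0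
    have hp1 := app_spec hgp.1 h1
    have hB : HOD (app g (0 : Ordinal.{u}).toZFSet) := by
      have h3 := hg.mem hp0
      rw [ZFSet.pair] at h3
      exact (h3.mem (ZFSet.mem_pair.2 (Or.inr rfl))).mem (ZFSet.mem_pair.2 (Or.inr rfl))
    have hsub : ∀ i ∈ (2 : Ordinal.{u}).toZFSet, ∀ S, S ⊆ l.toZFSet → pair i S ∈ g → S ⊆ A :=
      fun i hi S hS hiS a ha => (hgp.2.2.2 a (hS ha)).2 ⟨i, hi, S, hS, hiS, ha⟩
    refine hat.2.2.2 _ (hsub _ h0 _ hs0 hp0) hB ⟨hgp.2.1 _ h0 _ hs0 hp0, ?_⟩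
    refine stat_mono (hgp.2.1 _ h1 _ hs1 hp1) fun a ha => mem_dif.2
      ⟨hsub _ h1 _ hs1 hp1 ha, fun ha0 => ?_⟩
    have h4 := hgp.2.2.1 _ h0 _ h1 _ hs0 _ hs1 hp0 hp1 ⟨a, ha0, ha⟩
    exact zero_ne_one (Ordinal.toZFSet_injective h4)
  tfae_have 4 → 5 := by
    intro h hat
    obtain ⟨l, hl, hr⟩ := exists_regUnc δ
    obtain ⟨A', h1, h2⟩ := hat l hl hr _ (hω l hl hr)
    refine h l hl hr A' ⟨h2.1, h2.2.1, h2.2.2.1, fun a ha => ?_⟩ h2
    exact (hω l hl hr).2.2.2 a (h1 ha)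
  tfae_have 5 → 6 := by
    intro h hB
    refine h fun l hl hr A hA => ?_
    obtain ⟨hAH, hAl, hAs, hAc⟩ := hA
    obtain ⟨μ, hμ, h2⟩ := StatL.union hr (stat_iff.1 hAs) hl
      (P := fun m α => m < δ ∧ CofN m.toZFSet α.toZFSet) (by
        rintro α h1 _
        obtain ⟨m, hm, h⟩ := hAc α.toZFSet h1
        exact ⟨m, hm, hm, h⟩)
    obtain ⟨s, hs, hno⟩ := hB μ hμ
    obtain ⟨m', hm', g, hg⟩ := few_subsets hδ hs
    have hRH : HOD (ZFSet.sep (fun a => CofN μ.toZFSet a) A) :=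
      HOD_sep4 (Ψ := fun v => CofN (v 5) (v 0)) (dfn_CofN _ _) hAH HOD_empty HOD_empty HOD_empty
        μ 0 0 0 0
    obtain ⟨A', h3, h4⟩ := exists_atom (A := ZFSet.sep (fun a => CofN μ.toZFSet a) A) hr
      (hs.trans hl) ⟨m', hm'.trans hl, g, hg⟩ (hno l hr) hRH
      (fun a ha => hAl (mem_sep.1 ha).1) (by
        rw [stat_iff]
        exact h2.mono fun α _ h5 => mem_sep.2 ⟨h5.1, h5.2.2⟩) (fun a ha => (mem_sep.1 ha).2)
    exact ⟨A', fun a ha => (mem_sep.1 (h3 ha)).1, h4⟩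
  tfae_have 6 → 1 := by
    intro h
    by_contra hc
    exact h (bdd_of_not_hod hδ b hc)
  tfae_finish

end Pool.Agent.Results.MP_ecfd11_lc.AtomicOrAtomless
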