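import Pool.Agent.H644.Dec3

/-!
# A zero-one law for measurability in HOD at points of small cofinality

Let `δ` be an extendible cardinal.

* If the HOD Hypothesis holds, then no ordinal `ξ > δ` of cofinality less than `δ` is measurable in HOD.
* If the HOD Hypothesis fails, then there is `ρ < δ` such that for all regular `l > δ` and all regular
  `μ` with `ρ < μ < δ`, club many `ξ < l` of cofinality `μ` are measurable in HOD; in fact HOD has a
  measure on `ξ` which is generated by the club filter of `ξ` and one set of points of cofinality `ω`.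
-/

set_option autoImplicit false

namespace Pool.Agent.Results.MP_ecfd11_lc.ClubManyMeasurable

open Pool.Agent.H310.HD Pool.Agent.H639 Pool.Agent.H644 Gss969 ZFSet
open Pool.Agent.Results.MP_e37c09_lc.AlternativeA

universe u

/-- For club many `ξ < l` of cofinality `μ` the property `P` holds. -/
def ClubMany (μ l : Ordinal.{u}) (P : Ordinal.{u} → Prop) : Prop :=
  ∃ C, Club C l.toZFSet ∧ ∀ ξ : Ordinal.{u}, ξ.toZFSet ∈ C → IsCof μ ξ → P ξ

theorem result (b : Bool) (δ : Ordinal.{u}) (hδ : Extendible δ) :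
    List.TFAE [HODHypothesis.{u} b,
      AltA δ,
      ∀ ξ > δ, ∀ μ < δ, IsCof μ ξ → ¬ MeasIn HOD (Ordinal.toZFSet ξ),
      ∃ l > δ, RegUnc (Ordinal.toZFSet l) ∧ ∀ ρ < δ, ∃ μ : Ordinal.{u}, RegUnc μ.toZFSet ∧ ρ < μ ∧
        μ < δ ∧ ¬ ClubMany μ l fun ξ => MeasIn HOD ξ.toZFSet,
      ¬ ∃ ρ < δ, ∀ l > δ, RegUnc (Ordinal.toZFSet l) → ∀ μ : Ordinal.{u}, RegUnc μ.toZFSet →
        ρ < μ → μ < δ → ClubMany μ l fun ξ => MeasIn HOD ξ.toZFSet ∧ ClubMeas ξ] := by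
  have hres := Pool.Agent.Results.MP_e37c09_lc.AlternativeA.result b δ hδ
  have hδc := hδ.regUnc.isCard
  tfae_have 1 ↔ 2 := hres.out 9 0
  tfae_have 2 → 3 := by
    intro h ξ hξ μ hμ hcof hme
    have hbig : BigCof δ := (hres.out 0 6).1 h
    have h1 := hbig ξ hξ (Pool.Agent.H639.MeasIn.reg hme) μ hcof.1
    exact absurd ((hδc.card_lt hμ).trans_le ((Ordinal.card_le_card hξ.le).trans h1)) (lt_irrefl _)
  tfae_have 3 → 4 := by
    intro h
    obtain ⟨l, hl, hr, _⟩ := exists_succ hδc hδ.om_lt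
    refine ⟨l, hl, hr, fun ρ hρ => ?_⟩
    obtain ⟨μ, hμ, h1, h2⟩ := exists_reg_between hδ hρ
    refine ⟨μ, hμ, h1, h2, ?_⟩
    rintro ⟨C, hC, h3⟩
    obtain ⟨ξ, _, h4, h5, _, h6⟩ := exists_pt hr hC (IsReg.of_regUnc hμ) (h2.trans hl) hl
    exact h ξ h4 μ h2 h6 (h3 ξ h5 h6)
  tfae_have 4 → 5 := by
    rintro ⟨l, hl, hr, h⟩ ⟨ρ, hρ, h1⟩
    obtain ⟨μ, hμ, h2, h3, h4⟩ := h ρ hρ
    obtain ⟨C, hC, h5⟩ := h1 l hl hr μ hμ h2 h3
    exact h4 ⟨C, hC, fun ξ hξ hc => (h5 ξ hξ hc).1⟩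
  tfae_have 5 → 1 := by
    intro h
    by_contra hc
    obtain ⟨ρ, hρ, h1⟩ := club_meas hδ (bdd_of_not_hod hδ b hc)
    exact h ⟨ρ, hρ, fun l hl hr μ hμ h2 h3 => h1 l hl hr μ hμ h2 h3⟩
  tfae_finish

end Pool.Agent.Results.MP_ecfd11_lc.ClubManyMeasurable
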