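import Pool.Agent.H639.Ref8

/-!
# The HOD Dichotomy from simultaneous reflection of stationary sets: a local form and a threshold

Woodin's HOD Dichotomy (for extendible cardinals; Goldberg: for strongly compact cardinals) holds at
every regular cardinal `θ` with the following reflection property: for all sufficiently large regular
`l`, all countable families of stationary subsets of `cof(ω) ∩ l` reflect simultaneously at an ordinal
of cofinality less than `θ`. This is a combinatorial property which small cardinals can have: Martin's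
Maximum implies it for `θ = ω₂`. More generally consider families of fewer than `μ` stationary sets,
`ω < μ`. Moreover the dichotomy has a local form. The reflection property holds at `l` if there is a
fine `μ`-complete ultrafilter on `P_θ(l)`; so the theorem applies to strongly compact and to
`ω₁`-strongly compact cardinals, and level by level.

1. (One regular cardinal `l > θ` with the reflection property.) If HOD has a sequence of `k` disjoint
   stationary subsets of `cof(ω) ∩ l`, then up to `k` the model HOD is close to `V`: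
   * every set of fewer than `μ` ordinals below `k` is contained in a set in HOD with fewer than `θ`
     elements;
   * every `κ` in `[θ, k]` which is regular in HOD has cofinality `|κ|`;
   * no `α ≤ k` in `[γ, γ⁺)`, `γ > θ` a singular cardinal, is regular in HOD;
   * for all regular `l'` in `(θ, k]` and `0 < i ≤ l'` HOD has a partition of `cof(ω) ∩ l'` into `i`
     stationary sets.
   For `k = l` each of these properties (but the third) is equivalent to the hypothesis.
2. (Threshold.) If all regular `l > θ` have the reflection property, then either the HOD Hypothesis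
   holds and for all regular `l > θ` there are `l` disjoint stationary sets as above; or it fails and
   there is a regular `c > θ` such that
   * for regular `l > θ` there are `l` disjoint stationary sets as above if and only if `l < c`;
   * for singular `γ > θ`, HOD is correct about `γ` and `γ⁺` (no `α` with `γ ≤ α < γ⁺` is regular in
     HOD) if and only if `γ⁺ < c`;
   * for no regular `l ≥ c` HOD has a sequence of `c` disjoint stationary subsets of `cof(ω) ∩ l`; so
     all regular `l > (2^c)^HOD` are `ω`-strongly measurable in HOD;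
   * `c` is the successor of a regular cardinal or of a singular cardinal of cofinality `ω`.
3. (The dichotomy.) If all sufficiently large regular `l` have the reflection property, then either
   all sufficiently large regular cardinals are `ω`-strongly measurable in HOD; or none above `θ` is,
   and HOD has the properties in 1 for all `k`.

The proof uses no elementary embeddings. If `S_i`, `i < k`, is a sequence in HOD of disjoint stationary
sets, then the set of all `i` such that `S_i` is stationary in `α` is in HOD and has at most `cf(α)`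
elements. For the second point we use Ketonen's argument with the ideal of nonstationary subsets of
`κ` in place of an ultrafilter: choose in HOD short cofinal sets in all `x < κ` of cofinality `ω`; for
`y < κ` there is a least `z` such that stationary many of them meet the interval `(y, z)`; so there are
`κ` disjoint intervals which are met by one of the cofinal sets of the elements of a given club.
-/

set_option autoImplicit false

namespace Pool.Agent.Results.MP_ecfd11_lc.DichotomyFromReflection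

open Pool.Agent.H310.HD Pool.Agent.H639 Gss969 ZFSet
open Pool.Agent.Results.MP_e37c09_lc.AlternativeA

universe u

/-- There are arbitrarily long sequences in HOD of pairwise disjoint stationary subsets of regular
cardinals, consisting of ordinals of cofinality `ω`. -/
def FamOm : Prop :=
  ∀ k₀ : Ordinal.{u}, ∃ k ≥ k₀, ∃ l : Ordinal.{u}, RegUnc l.toZFSet ∧ Split k l

/-- Every `κ ≥ θ` which is regular in HOD has cofinality at least `|κ|`. -/
def CofAll (θ : Ordinal.{u}) : Prop :=
  ∀ κ ≥ θ, HODReg κ → ∀ ν : Ordinal.{u}, CofN ν.toZFSet κ.toZFSet → κ.card ≤ ν.card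

/-- For every singular cardinal `γ > θ` no `α ≤ k` with `γ ≤ α < γ⁺` is regular in HOD. -/
def AltTo (θ k : Ordinal.{u}) : Prop :=
  ∀ γ > θ, IsSing (Ordinal.toZFSet γ) → ∀ l : Ordinal.{u}, IsSuccCard γ.toZFSet l.toZFSet →
    ∀ α, γ ≤ α → α < l → α ≤ k → ¬ HODReg α

/-- The regular cardinal `c > θ` is the threshold for `θ`:
* it is the successor of a regular cardinal or of a singular cardinal of cofinality `ω`;
* for regular `l > θ` there is in HOD a sequence of `l` disjoint stationary subsets of `cof(ω) ∩ l` if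
  and only if `l < c`;
* for singular `γ > θ` no `α` with `γ ≤ α < γ⁺` is regular in HOD if and only if `γ⁺ < c`;
* for regular `l ≥ c` there is no sequence of `c` disjoint stationary subsets of `cof(ω) ∩ l` in HOD,
  so that `l` is `ω`-strongly measurable in HOD if `(2^c)^HOD < l`. -/
def Threshold (b : Bool) (θ c : Ordinal.{u}) : Prop :=
  θ < c ∧ RegUnc c.toZFSet ∧
    (∃ γ ≥ θ, IsSuccCard (Ordinal.toZFSet γ) c.toZFSet ∧
      (RegUnc (Ordinal.toZFSet γ) ∨ IsSing (Ordinal.toZFSet γ) ∧ CofOm γ.toZFSet)) ∧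
    (∀ l > θ, RegUnc (Ordinal.toZFSet l) → (Split l l ↔ l < c)) ∧
    (∀ γ > θ, IsSing (Ordinal.toZFSet γ) → ∀ l : Ordinal.{u}, IsSuccCard γ.toZFSet l.toZFSet →
      ((∀ α, γ ≤ α → α < l → ¬ HODReg α) ↔ l < c)) ∧
    ∀ l ≥ c, RegUnc (Ordinal.toZFSet l) → ¬ Split c l ∧
      (c < l → FewSub HOD c.toZFSet l.toZFSet → StrMeas b l)

/-- The local form. -/
theorem loc {μ θ k l : Ordinal.{u}} (hμ : Ordinal.omega0 < μ) (hθ : RegUnc θ.toZFSet)
    (hR : Refl μ θ l) (h : Split k l) :
    CovSetsTo μ θ k ∧ CovOmTo θ k ∧ CofTo θ k ∧ AltTo θ k ∧ PartTo θ k := by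
  have h1 := covSetsTo_of_split hR h
  have h2 := h1.covOmTo hμ hθ.isCard
  have h3 := h2.cofTo hθ
  exact ⟨h1, h2, h3, fun γ hγ hs l' hl' α h4 h5 h6 hα =>
    no_reg hs h4 hl' h5 hα (h3 α (hγ.le.trans h4) h6 hα), h2.partTo⟩

theorem tfae {μ θ l : Ordinal.{u}} (hμ : Ordinal.omega0 < μ) (hθ : RegUnc θ.toZFSet)
    (hl : θ < l) (hr : RegUnc l.toZFSet) (hR : Refl μ θ l) :
    List.TFAE [Split l l, CovSetsTo μ θ l, CovOmTo θ l, CofTo θ l, ManySing l, PartTo θ l] := by
  tfae_have 1 → 2 := covSetsTo_of_split hR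
  tfae_have 2 → 3 := fun h => h.covOmTo hμ hθ.isCard
  tfae_have 3 → 4 := fun h => h.cofTo hθ
  tfae_have 4 → 5 := fun h => h.manySing hθ hl hr
  tfae_have 5 → 1 := fun h => split_of_manySing h
  tfae_have 3 → 6 := fun h => h.partTo
  tfae_have 6 → 1 := fun h => split_of_part (h l hl le_rfl hr l hr.pos le_rfl)
  tfae_finish

theorem threshold (b : Bool) {μ θ : Ordinal.{u}} (hμ : Ordinal.omega0 < μ)
    (hθ : RegUnc θ.toZFSet) (hR : ∀ l > θ, RegUnc (Ordinal.toZFSet l) → Refl μ θ l) :
    (HODHypothesis.{u} b ∧ ∀ l > θ, RegUnc (Ordinal.toZFSet l) → Split l l) ∨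
      (¬ HODHypothesis.{u} b ∧ ∃ c, Threshold b θ c) := by
  by_cases h : ∀ l > θ, RegUnc (Ordinal.toZFSet l) → Split l l
  · refine Or.inl ⟨fun β => ?_, h⟩
    obtain ⟨l, hl, hr⟩ := exists_regUnc (max θ β)
    have hl1 := (le_max_left _ _).trans_lt hl
    have h1 : ManySing l := ((tfae hμ hθ hl1 hr (hR l hl1 hr)).out 0 4).1 (h l hl1 hr)
    exact ⟨l, (le_max_right _ _).trans_lt hl, notStrMeas_of_sing b hr h1.2⟩
  · push Not at h
    obtain ⟨c, ⟨hc, hrc, hs⟩, hmin⟩ := WellFounded.has_min (wellFounded_lt (α := Ordinal.{u}))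
      {c | θ < c ∧ RegUnc (Ordinal.toZFSet c) ∧ ¬ Split c c} h
    have hbelow : ∀ l > θ, l < c → RegUnc (Ordinal.toZFSet l) → Split l l := by
      intro l hl hlc hr
      by_contra hcon
      exact hmin l ⟨hl, hr, hcon⟩ hlc
    have h0 : ∀ l ≥ c, RegUnc (Ordinal.toZFSet l) → ∀ k, c ≤ k → ¬ Split k l :=
      fun l hl hr k hk h2 => hs (h2.down hθ hμ (hR l (hc.trans_le hl) hr) hc hk hrc)
    have h1 : ∀ l ≥ c, RegUnc (Ordinal.toZFSet l) → ¬ Split c l :=
      fun l hl hr => h0 l hl hr c le_rfl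
    have h2 : ∀ l ≥ c, RegUnc (Ordinal.toZFSet l) → c < l →
        FewSub HOD c.toZFSet l.toZFSet → StrMeas b l := fun l hl hr hcl hf =>
      ⟨hr, c.toZFSet, tzm.2 hcl, ⟨⟨om, hrc.2.1, rfl⟩, fun _ => hrc.isCard⟩, hf,
        fun ⟨g, hg, hp⟩ => h1 l hl hr (split_of_part ⟨g, hg, hp⟩)⟩
    obtain ⟨γ, hγ1, hγ2, hγ3⟩ := exists_pred hμ hθ hR hc hrc hs hbelow
    have h4 := pred_cof hμ hθ hR hc hrc hs hbelow hγ1 hγ2 hγ3
    refine Or.inr ⟨fun h3 => ?_, c, hc, hrc, ⟨γ, hγ1, hγ3, h4⟩, fun l hl hr => ⟨fun h5 => ?_,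
      fun h5 => hbelow l hl h5 hr⟩, fun γ' hγ' hsing l hsucc => ?_, fun l hl hr =>
      ⟨h1 l hl hr, h2 l hl hr⟩⟩
    · obtain ⟨c', hc'⟩ := fewSub_large HOD c
      obtain ⟨l, hl, hn⟩ := h3 (max c' c)
      have hcl : c < l := (le_max_right _ _).trans_lt hl
      exact hn.2 (h2 l hcl.le hn.1 hcl (hc' l ((le_max_left _ _).trans_lt hl)))
    · by_contra hcon
      push Not at hcon
      exact h0 l hcon hr l hcon h5
    · have hωγ : Ordinal.omega0 < γ' := hθ.om_lt.trans hγ'
      have hlr := regUnc_of_succ hsing.1 hωγ hsucc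
      have hγl : γ' < l := tzm.1 hsucc.2.1
      constructor
      · intro h5
        by_contra hcon
        push Not at hcon
        refine h0 l hcon hlr l hcon (split_of_manySing ⟨hlr, (statL_om hlr hγl).mono
          fun α hα hα' => ⟨hα'.2, ?_⟩⟩)
        by_contra h6
        exact h5 α hα'.1.le hα ⟨hα'.2.lim.1, hα'.2.lim.2, h6⟩
      · intro h5 α h6 h7
        exact (loc hμ hθ (hR l (hγ'.trans hγl) hlr) (hbelow l (hγ'.trans hγl) h5 hlr)).2.2.2.1
          γ' hγ' hsing l hsucc α h6 h7 h7.le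

theorem global (b : Bool) {μ θ : Ordinal.{u}} (hμ : Ordinal.omega0 < μ) (hθ : RegUnc θ.toZFSet)
    (hR : ∃ l₀ : Ordinal.{u}, ∀ l > l₀, RegUnc (Ordinal.toZFSet l) → Refl μ θ l) :
    List.TFAE [HODHypothesis.{u} b, FamOm.{u}, CovSets μ θ, CovOm θ, CofAll θ, AltA θ,
      ∀ l > θ, RegUnc (Ordinal.toZFSet l) → NotStrMeas b l, Partitions θ] := by
  obtain ⟨l₀, hR⟩ := hR
  tfae_have 1 → 2 := by
    intro h k₀
    obtain ⟨k, hk, l, _, hl, S, hS, hF⟩ := fam_of_nonSM (b := b) (P := HOD) (fun β => by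
      obtain ⟨l, h1, h2⟩ := h β
      exact ⟨l, h1, (notStrMeas_iff b l).1 h2⟩) k₀
    exact ⟨k, hk, l, hl, S, hS, hF⟩
  tfae_have 2 → 3 := by
    intro h m hm f
    obtain ⟨r, hr, hreg⟩ := exists_regUnc l₀
    obtain ⟨c, hc⟩ : ∃ c : Ordinal.{u}, ∀ i < m, f i < c :=
      ⟨⨆ i : Set.Iio m, Order.succ (f i.1), fun i hi => (Order.lt_succ _).trans_le
        (Ordinal.le_iSup (fun i : Set.Iio m => Order.succ (f i.1)) ⟨i, hi⟩)⟩
    obtain ⟨k, hk, l, hl, S, hS, hF⟩ := h (max r c)
    have hl₀ : l₀ < l := by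
      by_contra hcon
      push Not at hcon
      have h1 := fam_card hl hF
      have h2 := IsCard.card_lt hreg.isCard hr
      exact absurd (((Ordinal.card_le_card ((le_max_left _ _).trans hk)).trans h1).trans
        (Ordinal.card_le_card hcon)) (not_le.2 h2)
    obtain ⟨D, h1, _, h2, h3⟩ := cover_refl (hR l hl₀ hl) hS hF hm f fun i hi =>
      (hc i hi).trans_le ((le_max_right _ _).trans hk)
    exact ⟨D, h1, h2, h3⟩
  tfae_have 3 → 4 := fun h => h.covOm hμ hθ.isCard
  tfae_have 4 → 5 := fun h κ hκ hr ν hν => big_cof hθ h hκ hr hν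
  tfae_have 5 → 6 := by
    intro h γ hγ hs l hl α hγα hαl hα
    exact no_reg hs hγα hl hαl hα (h α (hγ.le.trans hγα) hα)
  tfae_have 6 → 1 := by
    intro h β
    obtain ⟨γ, hγ, hs, _⟩ := exists_isSing (max θ β)
    obtain ⟨l, hl, hr, hsucc⟩ := exists_succ hs.1 (by
      have := hs.2.1
      unfold om at this
      exact tzm.1 this)
    refine ⟨l, ((le_max_right _ _).trans_lt hγ).trans hl, notStrMeas_of_sing b hr
      ((statL_om hr hl).mono fun α hα h1 => ⟨h1.2, ?_⟩)⟩
    by_contra hcon
    exact h γ ((le_max_left _ _).trans_lt hγ) hs l hsucc α h1.1.le hα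
      ⟨h1.2.lim.1, h1.2.lim.2, hcon⟩
  tfae_have 4 → 8 := by
    intro h l hl hr k hk0 hk
    refine split_of_sing hr ((statL_om hr hl).mono fun α _ hα => ⟨hα.2, ?_⟩) hk0 hk
    obtain ⟨c, hc, g, hg, hf, hcof⟩ := h α hα.2
    exact ⟨_, tzm.2 (hc.trans hα.1), g, hg, hf, hcof⟩
  tfae_have 8 → 7 := by
    intro h l hl hr
    refine ⟨hr, ?_⟩
    rintro ⟨_, k, hk, hi, _, hn⟩
    obtain ⟨k, hk', rfl⟩ := Ordinal.mem_toZFSet_iff.1 hk
    refine hn (h l hl hr k ?_ hk'.le)
    obtain ⟨⟨x, hx, _⟩, _⟩ := hi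
    obtain ⟨β, hβ, _⟩ := Ordinal.mem_toZFSet_iff.1 hx
    exact bot_le.trans_lt hβ
  tfae_have 7 → 1 := by
    intro h β
    obtain ⟨l, hl, hr⟩ := exists_regUnc (max θ β)
    exact ⟨l, (le_max_right _ _).trans_lt hl, h l ((le_max_left _ _).trans_lt hl) hr⟩
  tfae_finish

theorem result (b : Bool) (μ θ : Ordinal.{u}) (hμ : Ordinal.omega0 < μ) (hθ : RegUnc θ.toZFSet) :
    (∀ l > θ, RegUnc (Ordinal.toZFSet l) → FineUlt μ θ l → Refl μ θ l) ∧
    (∀ l > θ, RegUnc (Ordinal.toZFSet l) → Refl μ θ l →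
      (∀ k, Split k l →
        CovSetsTo μ θ k ∧ CovOmTo θ k ∧ CofTo θ k ∧ AltTo θ k ∧ PartTo θ k) ∧
      List.TFAE [Split l l, CovSetsTo μ θ l, CovOmTo θ l, CofTo θ l, ManySing l, PartTo θ l]) ∧
    ((∀ l > θ, RegUnc (Ordinal.toZFSet l) → Refl μ θ l) →
      (HODHypothesis.{u} b ∧ ∀ l > θ, RegUnc (Ordinal.toZFSet l) → Split l l) ∨
        (¬ HODHypothesis.{u} b ∧ ∃ c, Threshold b θ c)) ∧
    ((∃ l₀ : Ordinal.{u}, ∀ l > l₀, RegUnc (Ordinal.toZFSet l) → Refl μ θ l) →
      List.TFAE [HODHypothesis.{u} b, FamOm.{u}, CovSets μ θ, CovOm θ, CofAll θ, AltA θ,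
        ∀ l > θ, RegUnc (Ordinal.toZFSet l) → NotStrMeas b l, Partitions θ]) :=
  ⟨fun _ hl hr h => h.refl hμ hl hr, fun _ hl hr hR => ⟨fun _ h => loc hμ hθ hR h, tfae hμ hθ hl hr hR⟩,
    threshold b hμ hθ, global b hμ hθ⟩

end Pool.Agent.Results.MP_ecfd11_lc.DichotomyFromReflection
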