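import Pool.Agent.H639.Mit6

/-!
# The HOD Hypothesis and the Mitchell order of HOD

Let `δ` be an extendible cardinal. If the HOD Hypothesis fails, then every regular cardinal `l > δ`
has Mitchell order at least `δ` in HOD. So the following are equivalent: the HOD Hypothesis;
alternative (A) of the HOD Dichotomy; there is a regular `l > δ` without normal measures in HOD; such
`l` form a proper class; there is a regular `l > δ` with `o(l) < δ` in HOD.
-/

set_option autoImplicit false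

namespace Pool.Agent.Results.MP_ecfd11_lc.MitchellOrder

open Pool.Agent.H310.HD Pool.Agent.H639 Gss969 ZFSet
open Pool.Agent.Results.MP_e37c09_lc.AlternativeA

universe u

theorem result (b : Bool) (δ : Ordinal.{u}) (hδ : Extendible δ) :
    List.TFAE [HODHypothesis.{u} b,
      AltA δ,
      ∀ ρ : Ordinal.{u}, ∃ l > ρ, RegUnc (Ordinal.toZFSet l) ∧ ∀ U, ¬ NMeas (Ordinal.toZFSet l) U,
      ∃ l > δ, RegUnc (Ordinal.toZFSet l) ∧ ∀ U, ¬ NMeas (Ordinal.toZFSet l) U,
      ∃ l > δ, RegUnc (Ordinal.toZFSet l) ∧ ¬ MitchellGe l δ] := by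
  tfae_have 1 ↔ 2 := (Pool.Agent.Results.MP_e37c09_lc.AlternativeA.result b δ hδ).out 9 0
  tfae_have 2 → 3 := by
    intro h ρ
    obtain ⟨l, hl, h1, h2⟩ := exists_no_nmeas hδ h (max ρ δ) (le_max_right _ _)
    exact ⟨l, (le_max_left _ _).trans_lt hl, h1, h2⟩
  tfae_have 3 → 4 := fun h => h δ
  tfae_have 4 → 5 := by
    rintro ⟨l, hl, h1, h2⟩
    refine ⟨l, hl, h1, fun h3 => ?_⟩
    obtain ⟨U, hU⟩ := h3 0 (lt_of_le_of_lt bot_le hδ.om_lt)
    cases hU with
    | mk _ _ V h4 _ _ => exact h2 U h4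
  tfae_have 5 → 1 := by
    rintro ⟨l, hl, h1, h2⟩
    by_contra hc
    exact h2 (mitchell_of_bdd hδ (bdd_of_not_hod hδ b hc) h1 hl)
  tfae_finish

end Pool.Agent.Results.MP_ecfd11_lc.MitchellOrder
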